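import Pool.Agent.Helper4.HZ.Goals

set_option autoImplicit false

open Pool.Agent.Helper4.HZ

namespace Pool.Agent.Helper56.HZ

/-- Six (or `d`) linearly independent homomorphisms to `ℤ/l` are jointly surjective (see
`Pool.Agent.Helper23.Hurwitz.eval_surjective`). -/
theorem eval_surj {G : Type*} [Group G] {l : ℕ} [Fact l.Prime] {d : ℕ} (b : Fin d → (G → ZMod l))
    (hb : ∀ i, ∀ m n, b i (m * n) = b i m + b i n) (hli : LinearIndependent (ZMod l) b) :
    ∃ Ψ : G →* Multiplicative (Fin d → ZMod l), Function.Surjective Ψ := by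
  let Ψ : G →* Multiplicative (Fin d → ZMod l) :=
    MonoidHom.mk' (fun n => Multiplicative.ofAdd (fun i => b i n)) (by
      intro m n
      apply Multiplicative.toAdd.injective
      funext i
      exact hb i m n)
  let P : AddSubgroup (Fin d → ZMod l) := Subgroup.toAddSubgroup Ψ.range
  let Q : Submodule (ZMod l) (Fin d → ZMod l) := AddSubgroup.toZModSubmodule l P
  have hmem : ∀ n : G, (fun i => b i n) ∈ Q := by
    intro n
    show (fun i => b i n) ∈ P
    exact ⟨n, rfl⟩
  have hQ : Q = ⊤ := by
    by_contra hne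
    obtain ⟨f, hf0, hf⟩ := Submodule.exists_le_ker_of_lt_top Q (lt_top_iff_ne_top.2 hne)
    apply hf0
    have hsum : ∀ v : Fin d → ZMod l, f v = ∑ i, v i * f (Pi.single i 1) := by
      intro v
      have := LinearMap.pi_apply_eq_sum_univ f v
      rw [this]
      apply Finset.sum_congr rfl
      intro i _
      rw [smul_eq_mul]
      congr 2
      funext j
      simp [Pi.single_apply, eq_comm]
    have hzero : ∑ i, f (Pi.single i 1) • b i = 0 := by
      funext n
      have h1 := hf (hmem n)
      rw [LinearMap.mem_ker, hsum] at h1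
      rw [Finset.sum_apply]
      simp only [Pi.smul_apply, smul_eq_mul, Pi.zero_apply]
      rw [← h1]
      apply Finset.sum_congr rfl
      intro i _
      ring
    have hc := (Fintype.linearIndependent_iff.1 hli) _ hzero
    apply LinearMap.ext
    intro v
    rw [hsum]
    simp [hc]
  refine ⟨Ψ, ?_⟩
  intro v
  have hv : v.toAdd ∈ Q := by rw [hQ]; trivial
  have hv' : v.toAdd ∈ P := hv
  obtain ⟨n, hn⟩ := hv'
  exact ⟨n, hn⟩

theorem DIM_holds : S_DIM := by
  intro G _ _ p _ O h6
  obtain ⟨f, hf⟩ := exists_linearIndependent_of_le_finrank h6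
  have hf2 := hf.map' (homsTo p O).subtype (Submodule.ker_subtype _)
  obtain ⟨Ψ, hΨ⟩ := eval_surj (G := O) (l := p) (d := 6) (fun i => ((f i : homsTo p O) : O → ZMod p))
    (fun i m n => (f i).2 m n) hf2
  have h1 := Subgroup.card_dvd_of_surjective Ψ hΨ
  have h2 : Nat.card (Multiplicative (Fin 6 → ZMod p)) = p ^ 6 := by
    have : Nat.card (Multiplicative (Fin 6 → ZMod p)) = Nat.card (Fin 6 → ZMod p) :=
      Nat.card_congr Multiplicative.toAdd
    rw [this, Nat.card_fun, Nat.card_zmod, Nat.card_fin]
  rwa [h2] at h1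

end Pool.Agent.Helper56.HZ
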