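import Pool.Agent.Helper4.HZ.Goals

set_option autoImplicit false

open Pool.Agent.Helper4.HZ

namespace Pool.Agent.Helper56.HZ

theorem two_le_w (p : ℕ) (hp : p.Prime) : 2 ≤ w p := by
  have := Fact.mk hp
  have : Finite (Matrix.SpecialLinearGroup (Fin 2) (ZMod p)) := Subtype.finite
  have : Finite (PSL2 p) := Quotient.finite _
  have : Nontrivial (PSL2 p) := SL2Simple.PSL_nontrivial
  exact Finite.one_lt_card

theorem w_lower (h : S_CRD) (p : ℕ) (hp : p.Prime) (h7 : 7 < p) :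
    (p : ℝ) ^ 3 / 4 ≤ (w p : ℝ) := by
  have := Fact.mk hp
  have h1 := h p (by omega)
  have h2 : (2 : ℝ) * w p = p * ((p : ℝ) ^ 2 - 1) := by
    have h3 : 1 ≤ p ^ 2 := Nat.one_le_pow _ _ (by omega)
    have h4 : ((2 * w p : ℕ) : ℝ) = ((p * (p ^ 2 - 1) : ℕ) : ℝ) := by rw [h1]
    push_cast [Nat.cast_sub h3] at h4
    exact h4
  have h5 : (7 : ℝ) < p := by exact_mod_cast h7
  nlinarith [sq_nonneg ((p : ℝ)), mul_pos (show (0 : ℝ) < p by linarith) (show (0 : ℝ) < (p : ℝ) ^ 2 - 2 by nlinarith)]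

theorem term_bound (h : S_CRD) (s : ℝ) (hs : 0 < s) (p : ℕ) (hp : p.Prime) (h7 : 7 < p) (e : ℕ)
    (he : 2 ≤ e) : (((w p ^ e : ℕ) : ℝ)) ^ (-s) ≤ (16 : ℝ) ^ s * (p : ℝ) ^ (-(6 * s)) := by
  have h1 := w_lower h p hp h7
  have hp0 : (0 : ℝ) < p := by exact_mod_cast hp.pos
  have h2 : (1 : ℝ) ≤ w p := by exact_mod_cast (by have := two_le_w p hp; omega : 1 ≤ w p)
  have h3 : (p : ℝ) ^ 6 / 16 ≤ ((w p ^ e : ℕ) : ℝ) := by
    push_cast
    calc (p : ℝ) ^ 6 / 16 = ((p : ℝ) ^ 3 / 4) ^ 2 := by ring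
      _ ≤ (w p : ℝ) ^ 2 := pow_le_pow_left₀ (by positivity) h1 2
      _ ≤ (w p : ℝ) ^ e := pow_le_pow_right₀ h2 he
  have h4 : (0 : ℝ) < (p : ℝ) ^ 6 / 16 := by positivity
  refine (Real.rpow_le_rpow_of_nonpos h4 h3 (by linarith)).trans (le_of_eq ?_)
  rw [Real.div_rpow (by positivity) (by norm_num), Real.rpow_neg (by norm_num : (0 : ℝ) ≤ 16),
    div_inv_eq_mul, mul_comm, ← Real.rpow_natCast (p : ℝ) 6, ← Real.rpow_mul hp0.le]
  congr 2
  push_cast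
  ring

theorem Z_powers (h : S_CRD) (s : ℝ) (hs : 1 / 6 < s) (e : ℕ) (he : 2 ≤ e) :
    Z s {m | ∃ p : ℕ, p.Prime ∧ 7 < p ∧ m = w p ^ e} < ⊤ := by
  unfold Z
  let f : {p : ℕ // p.Prime ∧ 7 < p} → {m | ∃ p : ℕ, p.Prime ∧ 7 < p ∧ m = w p ^ e} :=
    fun p => ⟨w p.1 ^ e, p.1, p.2.1, p.2.2, rfl⟩
  have hf : Function.Surjective f := by
    rintro ⟨m, p, hp, h7, rfl⟩
    exact ⟨⟨p, hp, h7⟩, rfl⟩
  refine lt_of_le_of_lt (ENNReal.tsum_le_tsum_comp_of_surjective hf _) ?_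
  have hsum : Summable fun n : ℕ => (16 : ℝ) ^ s * (n : ℝ) ^ (-(6 * s)) :=
    (Real.summable_nat_rpow.mpr (by linarith)).mul_left _
  have hfin : ∑' n : ℕ, ENNReal.ofReal ((16 : ℝ) ^ s * (n : ℝ) ^ (-(6 * s))) < ⊤ := by
    rw [← ENNReal.ofReal_tsum_of_nonneg (fun n => by positivity) hsum]
    exact ENNReal.ofReal_lt_top
  refine lt_of_le_of_lt ?_ hfin
  refine le_trans ?_ (ENNReal.tsum_comp_le_tsum_of_injective
    (f := fun p : {p : ℕ // p.Prime ∧ 7 < p} => p.1) Subtype.val_injective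
    (fun n : ℕ => ENNReal.ofReal ((16 : ℝ) ^ s * (n : ℝ) ^ (-(6 * s)))))
  refine ENNReal.tsum_le_tsum fun p => ENNReal.ofReal_le_ofReal ?_
  exact term_bound h s (by linarith) p.1 p.2.1 p.2.2 e he

theorem Z_union (s : ℝ) (A B : Set ℕ) : Z s (A ∪ B) ≤ Z s A + Z s B :=
  ENNReal.tsum_union_le (fun n : ℕ => ENNReal.ofReal ((n : ℝ) ^ (-s))) A B

theorem Z_finite (s : ℝ) (A : Set ℕ) (hA : A.Finite) : Z s A < ⊤ := by
  have := hA.fintype
  unfold Z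
  rw [tsum_fintype]
  exact ENNReal.sum_lt_top.mpr fun a _ => ENNReal.ofReal_lt_top

theorem ZAT_holds (h : S_CRD) : S_ZAT := by
  intro X s hs hZ
  constructor
  · have e : atoms X = (simpleOrders X ∪ {m | ∃ p : ℕ, p.Prime ∧ p ≤ 7 ∧ m = w p}) ∪
        ({m | ∃ p : ℕ, p.Prime ∧ 7 < p ∧ m = w p ^ 2} ∪
          {m | ∃ p : ℕ, p.Prime ∧ 7 < p ∧ m = w p ^ 3}) := by
      unfold atoms
      congr 1
      ext m
      constructor
      · rintro ⟨p, hp, h7, h | h⟩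
        · exact Or.inl ⟨p, hp, h7, h⟩
        · exact Or.inr ⟨p, hp, h7, h⟩
      · rintro (⟨p, hp, h7, h⟩ | ⟨p, hp, h7, h⟩)
        · exact ⟨p, hp, h7, Or.inl h⟩
        · exact ⟨p, hp, h7, Or.inr h⟩
    rw [e]
    refine lt_of_le_of_lt (Z_union _ _ _) (ENNReal.add_lt_top.mpr ⟨?_, ?_⟩)
    · refine lt_of_le_of_lt (Z_union _ _ _) (ENNReal.add_lt_top.mpr ⟨hZ, ?_⟩)
      refine Z_finite s _ (((Set.finite_Iic 7).image w).subset ?_)
      rintro m ⟨p, _, hp, rfl⟩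
      exact ⟨p, hp, rfl⟩
    · exact lt_of_le_of_lt (Z_union _ _ _)
        (ENNReal.add_lt_top.mpr ⟨Z_powers h s hs 2 le_rfl, Z_powers h s hs 3 (by norm_num)⟩)
  · rintro a ((⟨T, hT, hfin, hns, _, _, hc⟩ | ⟨p, hp, _, rfl⟩) | ⟨p, hp, _, h1 | h1⟩)
    · have := hns.1
      rw [← hc]
      have : Nontrivial T := IsSimpleGroup.toNontrivial
      exact Finite.one_lt_card
    · exact two_le_w p hp
    · rw [h1]
      have := two_le_w p hp
      nlinarith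
    · rw [h1]
      have := two_le_w p hp
      calc 2 ≤ w p := this
        _ = w p ^ 1 := (pow_one _).symm
        _ ≤ w p ^ 3 := Nat.pow_le_pow_right (by omega) (by norm_num)

end Pool.Agent.Helper56.HZ
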